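import Mathlib

open Polynomial Finset

namespace Pool.Agent.Results.MP_d51b1e_co.LinearGrowth

/-- The Collatz map on `F_2[x]`: `T f = (x + 1) f + 1` if the constant term of `f` is `1`, and
`T f = f / x` if the constant term of `f` is `0`. -/
noncomputable def T (f : (ZMod 2)[X]) : (ZMod 2)[X] :=
  if f.coeff 0 = 1 then (X + 1) * f + 1 else f / X

/-- The stopping time: the least `k ≥ 0` with `T^k f = 1`. -/
noncomputable def tMin (f : (ZMod 2)[X]) : ℕ := sInf {k : ℕ | T^[k] f = 1}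

/-- There are finitely many polynomials of degree `d` over `F_2`. -/
theorem finite_degree_eq (d : ℕ) : {f : (ZMod 2)[X] | f.degree = (d : WithBot ℕ)}.Finite := by
  have h : {f : (ZMod 2)[X] | f.degree = (d : WithBot ℕ)} ⊆
      ((degreeLT (ZMod 2) (d + 1) : Submodule (ZMod 2) (ZMod 2)[X]) : Set (ZMod 2)[X]) := by
    intro f hf
    have hf' : f.degree = (d : WithBot ℕ) := hf
    simp only [SetLike.mem_coe, mem_degreeLT, hf']
    exact_mod_cast Nat.lt_succ_self d
  have h2 : Finite (degreeLT (ZMod 2) (d + 1)) :=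
    Finite.of_equiv _ (degreeLTEquiv (ZMod 2) (d + 1)).toEquiv.symm
  exact (Set.toFinite _).subset h

/-- The average stopping time over all polynomials of degree exactly `d`, normalised by `2^d`. -/
noncomputable def rho (d : ℕ) : ℝ :=
  (∑ f ∈ (finite_degree_eq d).toFinset, (tMin f : ℝ)) / 2 ^ d

/-! ### The accelerated map -/

/-- The accelerated map: one division by `x` in every step. -/
noncomputable def S (f : (ZMod 2)[X]) : (ZMod 2)[X] :=
  if f.coeff 0 = 1 then ((X + 1) * f + 1).divX else f.divX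

lemma zmod2 (a : ZMod 2) : a = 0 ∨ a = 1 := by
  revert a; decide

lemma zmod2_ne (a : ZMod 2) (h : a ≠ 1) : a = 0 := (zmod2 a).resolve_right h

lemma two_zero : (1 : ZMod 2) + 1 = 0 := by decide

lemma X_mul_S_odd {f : (ZMod 2)[X]} (h : f.coeff 0 = 1) : X * S f = (X + 1) * f + 1 := by
  have h1 := X_mul_divX_add ((X + 1) * f + 1)
  have h0 : ((X + 1) * f + 1).coeff 0 = 0 := by
    simp [add_mul, h, two_zero]
  rw [h0, C_0, add_zero] at h1
  rw [S, if_pos h, h1]

lemma X_mul_S_even {f : (ZMod 2)[X]} (h : f.coeff 0 ≠ 1) : X * S f = f := by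
  have h1 := X_mul_divX_add f
  rw [zmod2_ne _ h, C_0, add_zero] at h1
  rw [S, if_neg h, h1]

lemma T_even {f : (ZMod 2)[X]} (h : f.coeff 0 ≠ 1) : T f = S f := by
  rw [T, if_neg h]
  nth_rw 1 [← X_mul_S_even h]
  exact mul_div_cancel_left₀ _ X_ne_zero

lemma TT_odd {f : (ZMod 2)[X]} (h : f.coeff 0 = 1) : T (T f) = S f := by
  have h0 : ((X + 1) * f + 1).coeff 0 = 0 := by
    simp [add_mul, h, two_zero]
  have h1 : T f = X * S f := by rw [T, if_pos h, X_mul_S_odd h]
  have h2 : (T f).coeff 0 ≠ 1 := by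
    rw [h1]; simp
  rw [T, if_neg h2, h1]
  exact mul_div_cancel_left₀ _ X_ne_zero

lemma S_iter_eq_T_iter (n : ℕ) (f : (ZMod 2)[X]) : ∃ k ≤ 2 * n, S^[n] f = T^[k] f := by
  induction n with
  | zero => exact ⟨0, by simp, rfl⟩
  | succ n ih =>
    obtain ⟨k, hk, h⟩ := ih
    rw [Function.iterate_succ_apply', h]
    by_cases hp : (T^[k] f).coeff 0 = 1
    · refine ⟨k + 2, by omega, ?_⟩
      rw [← TT_odd hp, Function.iterate_succ_apply', Function.iterate_succ_apply']
    · refine ⟨k + 1, by omega, ?_⟩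
      rw [← T_even hp, Function.iterate_succ_apply']

lemma S_one : S 1 = 1 := by
  have h : X * S (1 : (ZMod 2)[X]) = X * 1 := by
    rw [X_mul_S_odd (by simp)]
    have : (1 : (ZMod 2)[X]) + 1 = 0 := by
      rw [← C_1, ← C_add, two_zero, C_0]
    linear_combination this
  exact mul_left_cancel₀ X_ne_zero h

lemma S_iter_one (n : ℕ) : S^[n] 1 = 1 := by
  induction n with
  | zero => rfl
  | succ n ih => rw [Function.iterate_succ_apply', ih, S_one]

/-- The set of times before `n` at which the orbit of `f` is odd. -/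
noncomputable def par (n : ℕ) (f : (ZMod 2)[X]) : Finset ℕ :=
  (range n).filter fun i => (S^[i] f).coeff 0 = 1

lemma par_succ_odd {n : ℕ} {f : (ZMod 2)[X]} (h : (S^[n] f).coeff 0 = 1) :
    par (n + 1) f = insert n (par n f) := by
  rw [par, range_add_one, filter_insert, if_pos h, par]

lemma par_succ_even {n : ℕ} {f : (ZMod 2)[X]} (h : (S^[n] f).coeff 0 ≠ 1) :
    par (n + 1) f = par n f := by
  rw [par, range_add_one, filter_insert, if_neg h, par]

lemma notMem_par (n : ℕ) (f : (ZMod 2)[X]) : n ∉ par n f := by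
  simp [par]

lemma card_par_succ_odd {n : ℕ} {f : (ZMod 2)[X]} (h : (S^[n] f).coeff 0 = 1) :
    (par (n + 1) f).card = (par n f).card + 1 := by
  rw [par_succ_odd h, card_insert_of_notMem (notMem_par n f)]

lemma card_par_le (n : ℕ) (f : (ZMod 2)[X]) : (par n f).card ≤ n := by
  have := card_filter_le (range n) (fun i => (S^[i] f).coeff 0 = 1)
  simpa [par] using this

/-- The orbit relation `x^n S^n f = (x+1)^b f + r` with `deg r < n`. -/
lemma rel_R (n : ℕ) (f : (ZMod 2)[X]) :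
    ∃ r : (ZMod 2)[X], r.degree < n ∧ X ^ n * S^[n] f = (X + 1) ^ (par n f).card * f + r := by
  induction n with
  | zero => exact ⟨0, by simp, by simp [par]⟩
  | succ n ih =>
    obtain ⟨r, hr, h⟩ := ih
    by_cases hp : (S^[n] f).coeff 0 = 1
    · refine ⟨(X + 1) * r + X ^ n, ?_, ?_⟩
      · have h1 : ((X + 1) * r).degree < ((n + 1 : ℕ) : WithBot ℕ) := by
          by_cases hr0 : r = 0
          · simp only [hr0, mul_zero, degree_zero]; exact WithBot.bot_lt_coe _
          · have hX : ((X : (ZMod 2)[X]) + 1).degree = 1 := by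
              have := degree_X_add_C (1 : ZMod 2); simpa using this
            rw [degree_mul, hX, degree_eq_natDegree hr0] at *
            rw [add_comm]
            have h2 : r.natDegree < n := by exact_mod_cast hr
            exact_mod_cast Nat.succ_lt_succ h2
        have h2 : ((X : (ZMod 2)[X]) ^ n).degree < ((n + 1 : ℕ) : WithBot ℕ) := by
          rw [degree_X_pow]; exact_mod_cast Nat.lt_succ_self n
        exact (degree_add_le _ _).trans_lt (max_lt h1 h2)
      · rw [card_par_succ_odd hp, Function.iterate_succ_apply', pow_succ, mul_assoc,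
          X_mul_S_odd hp]
        linear_combination (X + 1) * h
    · refine ⟨r, hr.trans (by exact_mod_cast Nat.lt_succ_self n), ?_⟩
      rw [par_succ_even hp, Function.iterate_succ_apply', pow_succ, mul_assoc,
          X_mul_S_even hp, h]

/-- Two orbits with the same parities. -/
lemma rel_D (n : ℕ) (f g : (ZMod 2)[X]) (h : par n f = par n g) :
    X ^ n * (S^[n] f - S^[n] g) = (X + 1) ^ (par n f).card * (f - g) := by
  induction n with
  | zero => simp [par]
  | succ n ih =>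
    by_cases hf : (S^[n] f).coeff 0 = 1
    · by_cases hg : (S^[n] g).coeff 0 = 1
      · have h' : par n f = par n g := by
          rw [par_succ_odd hf, par_succ_odd hg] at h
          have := congrArg (fun s => s.erase n) h
          simpa [erase_insert (notMem_par n f), erase_insert (notMem_par n g)] using this
        have ih' := ih h'
        rw [card_par_succ_odd hf, Function.iterate_succ_apply', Function.iterate_succ_apply',
          pow_succ, mul_assoc, mul_sub, X_mul_S_odd hf, X_mul_S_odd hg]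
        linear_combination (X + 1) * ih'
      · exfalso
        rw [par_succ_odd hf, par_succ_even hg] at h
        exact notMem_par n g (h ▸ mem_insert_self n _)
    · by_cases hg : (S^[n] g).coeff 0 = 1
      · exfalso
        rw [par_succ_even hf, par_succ_odd hg] at h
        exact notMem_par n f (h ▸ mem_insert_self n _)
      · have h' : par n f = par n g := by
          rwa [par_succ_even hf, par_succ_even hg] at h
        rw [par_succ_even hf, Function.iterate_succ_apply', Function.iterate_succ_apply',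
          pow_succ, mul_assoc, mul_sub, X_mul_S_even hf, X_mul_S_even hg]
        exact ih h'

lemma S_ne_zero {f : (ZMod 2)[X]} (hf : f ≠ 0) : S f ≠ 0 := by
  intro h
  by_cases hp : f.coeff 0 = 1
  · have h1 := X_mul_S_odd hp
    rw [h, mul_zero] at h1
    -- (X+1) * f + 1 = 0, evaluate at 1
    have h2 := congrArg (Polynomial.eval 1) h1
    simp [two_zero] at h2
  · have h1 := X_mul_S_even hp
    rw [h, mul_zero] at h1
    exact hf h1.symm

lemma S_iter_ne_zero {f : (ZMod 2)[X]} (hf : f ≠ 0) (n : ℕ) : S^[n] f ≠ 0 := by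
  induction n with
  | zero => simpa using hf
  | succ n ih => rw [Function.iterate_succ_apply']; exact S_ne_zero ih

lemma natDegree_S_odd {f : (ZMod 2)[X]} (h : f.coeff 0 = 1) :
    (S f).natDegree = f.natDegree := by
  have hf : f ≠ 0 := by rintro rfl; simp at h
  have h1 := congrArg natDegree (X_mul_S_odd h)
  have hX : ((X : (ZMod 2)[X]) + 1) ≠ 0 := by
    have := X_add_C_ne_zero (1 : ZMod 2); simpa using this
  have hXd : ((X : (ZMod 2)[X]) + 1).natDegree = 1 := by
    have := natDegree_X_add_C (1 : ZMod 2); simpa using this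
  rw [natDegree_X_mul (S_ne_zero hf)] at h1
  have h2 : ((X + 1) * f + 1).natDegree = f.natDegree + 1 := by
    rw [natDegree_add_eq_left_of_natDegree_lt]
    · rw [natDegree_mul hX hf, hXd, add_comm]
    · rw [natDegree_mul hX hf, hXd, natDegree_one]; omega
  omega

lemma natDegree_S_even {f : (ZMod 2)[X]} (hf : f ≠ 0) (h : f.coeff 0 ≠ 1) :
    (S f).natDegree + 1 = f.natDegree := by
  have h1 := congrArg natDegree (X_mul_S_even h)
  rw [natDegree_X_mul (S_ne_zero hf)] at h1
  exact h1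

lemma natDegree_iter {f : (ZMod 2)[X]} (hf : f ≠ 0) (n : ℕ) :
    (S^[n] f).natDegree + n = f.natDegree + (par n f).card := by
  induction n with
  | zero => simp [par]
  | succ n ih =>
    by_cases hp : (S^[n] f).coeff 0 = 1
    · rw [card_par_succ_odd hp, Function.iterate_succ_apply', natDegree_S_odd hp]; omega
    · rw [par_succ_even hp, Function.iterate_succ_apply']
      have := natDegree_S_even (S_iter_ne_zero hf n) hp
      omega


lemma coprime_X_pow (a b : ℕ) : IsCoprime (((X : (ZMod 2)[X]) + 1) ^ b) (X ^ a) := by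
  apply IsCoprime.pow
  exact ⟨1, -1, by ring⟩

lemma degree_X_add_one_pow (b : ℕ) : (((X : (ZMod 2)[X]) + 1) ^ b).degree = b := by
  have hX : ((X : (ZMod 2)[X]) + 1).degree = 1 := by
    have := degree_X_add_C (1 : ZMod 2); simpa using this
  rw [degree_pow, hX]; simp

lemma leadingCoeff_eq_one {f : (ZMod 2)[X]} (hf : f ≠ 0) : f.leadingCoeff = 1 :=
  (zmod2 _).resolve_left (leadingCoeff_ne_zero.2 hf)

lemma ne_zero_of_degree {f : (ZMod 2)[X]} {d : ℕ} (hf : f.degree = (d : WithBot ℕ)) : f ≠ 0 := by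
  rintro rfl; simp at hf

/-- A polynomial of degree `d` is determined by its first `d` parities. -/
lemma eq_of_par_eq {d : ℕ} {f g : (ZMod 2)[X]} (hf : f.degree = (d : WithBot ℕ))
    (hg : g.degree = (d : WithBot ℕ)) (h : par d f = par d g) : f = g := by
  have h1 := rel_D d f g h
  have h2 : (X : (ZMod 2)[X]) ^ d ∣ (X + 1) ^ (par d f).card * (f - g) := ⟨_, h1.symm⟩
  have h3 : (X : (ZMod 2)[X]) ^ d ∣ f - g :=
    (coprime_X_pow d (par d f).card).symm.dvd_of_dvd_mul_left h2
  have h4 : (f - g).degree < f.degree :=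
    degree_sub_lt_left (hf.trans hg.symm) (ne_zero_of_degree hf)
      (by rw [leadingCoeff_eq_one (ne_zero_of_degree hf), leadingCoeff_eq_one (ne_zero_of_degree hg)])
  have h5 : f - g = 0 := by
    apply eq_zero_of_dvd_of_degree_lt h3
    rw [degree_X_pow, ← hf]; exact h4
  exact sub_eq_zero.1 h5

/-- **Key lemma**: on the fibre of `S^n` over a polynomial `g` of degree `s`, a polynomial of degree
`d = a + s` is determined by its first `a` parities. -/
lemma key {d s n a : ℕ} {g f₁ f₂ : (ZMod 2)[X]} (ha : a + s = d)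
    (hf₁ : f₁.degree = (d : WithBot ℕ)) (hf₂ : f₂.degree = (d : WithBot ℕ))
    (hg : g.degree = (s : WithBot ℕ)) (h₁ : S^[n] f₁ = g) (h₂ : S^[n] f₂ = g)
    (hp : par a f₁ = par a f₂) : f₁ = f₂ := by
  have n1 := ne_zero_of_degree hf₁
  have n2 := ne_zero_of_degree hf₂
  have d1 : f₁.natDegree = d := natDegree_eq_of_degree_eq_some hf₁
  have d2 : f₂.natDegree = d := natDegree_eq_of_degree_eq_some hf₂
  have dg : g.natDegree = s := natDegree_eq_of_degree_eq_some hg
  have hn : a ≤ n := by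
    have := natDegree_iter n1 n
    rw [h₁, dg, d1] at this
    omega
  obtain ⟨b, rfl⟩ : ∃ b, n = b + a := ⟨n - a, by omega⟩
  set c := (par a f₁).card with hc
  rw [Function.iterate_add_apply] at h₁ h₂
  set F₁ := S^[a] f₁ with hF₁
  set F₂ := S^[a] f₂ with hF₂
  have e1 := natDegree_iter n1 a
  have e2 := natDegree_iter n2 a
  have k1 := natDegree_iter (S_iter_ne_zero n1 a) b
  have k2 := natDegree_iter (S_iter_ne_zero n2 a) b
  rw [← hF₁] at e1 k1
  rw [← hF₂] at e2 k2
  rw [h₁, dg] at k1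
  rw [h₂, dg] at k2
  rw [d1, ← hc] at e1
  rw [d2, ← hp, ← hc] at e2
  obtain ⟨r₁, hr₁, R₁⟩ := rel_R b F₁
  obtain ⟨r₂, hr₂, R₂⟩ := rel_R b F₂
  rw [h₁] at R₁
  rw [h₂] at R₂
  have hk : (par b F₂).card = (par b F₁).card := by omega
  rw [hk] at R₂
  have hD := rel_D a f₁ f₂ hp
  rw [← hF₁, ← hF₂, ← hc] at hD
  have hdiv : ((X : (ZMod 2)[X]) + 1) ^ c ∣ F₁ - F₂ := by
    apply (coprime_X_pow a c).dvd_of_dvd_mul_left
    exact ⟨_, hD⟩
  have hsub : ((X : (ZMod 2)[X]) + 1) ^ (par b F₁).card * (F₁ - F₂) = r₂ - r₁ := by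
    linear_combination R₂ - R₁
  have hbc : (par b F₁).card + c = b := by omega
  have hdiv2 : ((X : (ZMod 2)[X]) + 1) ^ b ∣ ((X : (ZMod 2)[X]) + 1) ^ (par b F₁).card * (F₁ - F₂) := by
    have : ((X : (ZMod 2)[X]) + 1) ^ b =
        ((X : (ZMod 2)[X]) + 1) ^ (par b F₁).card * ((X : (ZMod 2)[X]) + 1) ^ c := by
      rw [← pow_add, hbc]
    rw [this]
    exact mul_dvd_mul_left _ hdiv
  have hX1 : ((X : (ZMod 2)[X]) + 1) ≠ 0 := by
    have := X_add_C_ne_zero (1 : ZMod 2); simpa using this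
  have hzero : ((X : (ZMod 2)[X]) + 1) ^ (par b F₁).card * (F₁ - F₂) = 0 := by
    apply eq_zero_of_dvd_of_degree_lt hdiv2
    rw [hsub, degree_X_add_one_pow]
    exact (degree_sub_le _ _).trans_lt (max_lt hr₂ hr₁)
  have hF : F₁ - F₂ = 0 := (mul_eq_zero.1 hzero).resolve_left (pow_ne_zero _ hX1)
  rw [hF, mul_zero] at hD
  exact sub_eq_zero.1 ((mul_eq_zero.1 hD.symm).resolve_left (pow_ne_zero _ hX1))

/-- The polynomials of degree `d`. -/
noncomputable def P (d : ℕ) : Finset (ZMod 2)[X] := (finite_degree_eq d).toFinset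

lemma mem_P {d : ℕ} {f : (ZMod 2)[X]} : f ∈ P d ↔ f.degree = (d : WithBot ℕ) := by
  rw [P, Set.Finite.mem_toFinset]; rfl

lemma par_mem (n : ℕ) (f : (ZMod 2)[X]) : par n f ∈ (range n).powerset := by
  rw [mem_powerset]; exact filter_subset _ _

lemma card_P (d : ℕ) : (P d).card = 2 ^ d := by
  apply le_antisymm
  · have h := card_le_card_of_injOn (s := P d) (t := (range d).powerset) (par d)
      (fun f _ => par_mem d f)
      (fun f hf g hg h => eq_of_par_eq (mem_P.1 hf) (mem_P.1 hg) h)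
    simpa using h
  · have h := card_le_card_of_injOn (s := (univ : Finset (Fin d → ZMod 2))) (t := P d)
      (fun c => X ^ d + ((degreeLTEquiv (ZMod 2) d).symm c : (ZMod 2)[X]))
      (fun c _ => ?_) (fun c _ c' _ h => ?_)
    · simpa [ZMod.card] using h
    · have h1 : ((degreeLTEquiv (ZMod 2) d).symm c : (ZMod 2)[X]).degree < d :=
        mem_degreeLT.1 ((degreeLTEquiv (ZMod 2) d).symm c).2
      have : (X ^ d + ((degreeLTEquiv (ZMod 2) d).symm c : (ZMod 2)[X])) ∈ P d := by
        rw [mem_P, degree_add_eq_left_of_degree_lt, degree_X_pow]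
        rwa [degree_X_pow]
      exact this
    · have h1 : ((degreeLTEquiv (ZMod 2) d).symm c : (ZMod 2)[X])
          = ((degreeLTEquiv (ZMod 2) d).symm c' : (ZMod 2)[X]) := add_left_cancel h
      exact (degreeLTEquiv (ZMod 2) d).symm.injective (Subtype.ext h1)

/-- Number of polynomials of degree `d` mapped by `S^n` to a given polynomial of degree `s`. -/
lemma card_fibre [DecidableEq (ZMod 2)[X]] {d s n : ℕ} {g : (ZMod 2)[X]} (hs : s ≤ d)
    (hg : g.degree = (s : WithBot ℕ)) :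
    ((P d).filter fun f => S^[n] f = g).card ≤ 2 ^ (d - s) := by
  have h := card_le_card_of_injOn (s := (P d).filter fun f => S^[n] f = g)
    (t := (range (d - s)).powerset) (par (d - s)) (fun f _ => par_mem _ f)
    (fun f hf g' hg' h => by
      simp only [coe_filter, Set.mem_ofPred_eq] at hf hg'
      exact key (by omega) (mem_P.1 hf.1) (mem_P.1 hg'.1) hg hf.2 hg'.2 h)
  simpa using h

/-! ### Trivial quadratic bound for the stopping time -/

lemma par_one (n : ℕ) : par n 1 = range n := by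
  rw [par, filter_true_of_mem]
  intro i _
  rw [S_iter_one]; simp

/-- Within the first `deg f + 1` steps there is an even step. -/
lemma exists_even {f : (ZMod 2)[X]} (hf : f ≠ 0) (h1 : 1 ≤ f.natDegree) :
    ∃ i ≤ f.natDegree, (S^[i] f).coeff 0 ≠ 1 := by
  by_contra hcon
  push Not at hcon
  set e := f.natDegree with he
  have hpar : par (e + 1) f = par (e + 1) 1 := by
    rw [par_one, par, filter_true_of_mem]
    intro i hi
    exact hcon i (by simpa [Nat.lt_succ_iff] using hi)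
  have hD := rel_D (e + 1) f 1 hpar
  have h2 : (X : (ZMod 2)[X]) ^ (e + 1) ∣ (X + 1) ^ (par (e + 1) f).card * (f - 1) := ⟨_, hD.symm⟩
  have h3 : (X : (ZMod 2)[X]) ^ (e + 1) ∣ f - 1 :=
    (coprime_X_pow _ _).symm.dvd_of_dvd_mul_left h2
  have h4 : f - 1 = 0 := by
    apply eq_zero_of_dvd_of_degree_lt h3
    rw [degree_X_pow]
    refine (degree_sub_le _ _).trans_lt (max_lt ?_ ?_)
    · rw [degree_eq_natDegree hf, ← he]; exact_mod_cast Nat.lt_succ_self e
    · rw [degree_one]; exact_mod_cast Nat.succ_pos e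
  have h5 : f = 1 := sub_eq_zero.1 h4
  rw [h5, natDegree_one] at he
  omega

lemma exists_drop {f : (ZMod 2)[X]} (hf : f ≠ 0) (h1 : 1 ≤ f.natDegree) :
    ∃ i ≤ f.natDegree + 1, (S^[i] f).natDegree + 1 = f.natDegree := by
  classical
  have hex := exists_even hf h1
  obtain ⟨i₀, hi₀, hi₀'⟩ := hex
  have hex' : ∃ i, (S^[i] f).coeff 0 ≠ 1 := ⟨i₀, hi₀'⟩
  set i := Nat.find hex' with hi
  have hile : i ≤ f.natDegree := (Nat.find_min' hex' hi₀').trans hi₀
  have hodd : ∀ j < i, (S^[j] f).coeff 0 = 1 := by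
    intro j hj
    by_contra h
    exact Nat.find_min hex' hj h
  have heven : (S^[i] f).coeff 0 ≠ 1 := Nat.find_spec hex'
  have hpar : par i f = range i := by
    rw [par, filter_true_of_mem]
    intro j hj
    exact hodd j (mem_range.1 hj)
  have hdeg := natDegree_iter hf i
  rw [hpar, card_range] at hdeg
  refine ⟨i + 1, by omega, ?_⟩
  rw [Function.iterate_succ_apply']
  have := natDegree_S_even (S_iter_ne_zero hf i) heven
  omega

lemma eq_one_of_natDegree {f : (ZMod 2)[X]} (hf : f ≠ 0) (h : f.natDegree = 0) : f = 1 := by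
  have h1 := eq_C_of_natDegree_eq_zero h
  have h2 : f.coeff 0 = 1 := by
    refine (zmod2 _).resolve_left ?_
    intro h0
    rw [h0, C_0] at h1
    exact hf h1
  rw [h1, h2, C_1]

/-- Trivial bound: `1` is reached after at most `(deg f + 1)^2` accelerated steps. -/
lemma worst (e : ℕ) : ∀ f : (ZMod 2)[X], f ≠ 0 → f.natDegree = e →
    ∃ n ≤ (e + 1) ^ 2, S^[n] f = 1 := by
  induction e with
  | zero => intro f hf h; exact ⟨0, by simp, eq_one_of_natDegree hf h⟩
  | succ e ih =>
    intro f hf h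
    obtain ⟨i, hi, hd⟩ := exists_drop hf (by omega)
    obtain ⟨n, hn, h1⟩ := ih (S^[i] f) (S_iter_ne_zero hf i) (by omega)
    refine ⟨n + i, ?_, ?_⟩
    · have : (e + 1 + 1) ^ 2 = (e + 1) ^ 2 + (2 * e + 3) := by ring
      omega
    · rw [Function.iterate_add_apply, h1]

/-! ### Bad polynomials: too many odd steps among the first `deg` ones -/

/-- Polynomials `g` of degree `s` for which at least three quarters of the first `s` accelerated
steps are odd. -/
noncomputable def Bad (s : ℕ) : Finset (ZMod 2)[X] :=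
  (P s).filter fun g => 3 * s ≤ 4 * (S^[s] g).natDegree

lemma card_Bad (s : ℕ) : ((Bad s).card : ℝ) ≤ (97 / 54 : ℝ) ^ s := by
  classical
  have h1 : ∀ g ∈ Bad s, (27 / 8 : ℝ) ^ s ≤ (81 / 16 : ℝ) ^ (par s g).card := by
    intro g hg
    simp only [Bad, mem_filter] at hg
    have hd := natDegree_iter (ne_zero_of_degree (mem_P.1 hg.1)) s
    rw [natDegree_eq_of_degree_eq_some (mem_P.1 hg.1)] at hd
    have h2 : 3 * s ≤ 4 * (par s g).card := by omega
    have e1 : (27 / 8 : ℝ) ^ s = (3 / 2 : ℝ) ^ (3 * s) := by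
      rw [pow_mul]; norm_num
    have e2 : (81 / 16 : ℝ) ^ (par s g).card = (3 / 2 : ℝ) ^ (4 * (par s g).card) := by
      rw [pow_mul]; norm_num
    rw [e1, e2]
    exact pow_le_pow_right₀ (by norm_num) h2
  have h2 : ((Bad s).card : ℝ) * (27 / 8 : ℝ) ^ s ≤ (97 / 16 : ℝ) ^ s := by
    calc ((Bad s).card : ℝ) * (27 / 8 : ℝ) ^ s = ∑ g ∈ Bad s, (27 / 8 : ℝ) ^ s := by
          rw [sum_const, nsmul_eq_mul]
      _ ≤ ∑ g ∈ Bad s, (81 / 16 : ℝ) ^ (par s g).card := sum_le_sum h1
      _ = ∑ t ∈ (Bad s).image (par s), (81 / 16 : ℝ) ^ t.card := by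
          rw [sum_image]
          intro f hf g hg h
          simp only [Bad, coe_filter, Set.mem_ofPred_eq] at hf hg
          exact eq_of_par_eq (mem_P.1 hf.1) (mem_P.1 hg.1) h
      _ ≤ ∑ t ∈ (range s).powerset, (81 / 16 : ℝ) ^ t.card := by
          apply sum_le_sum_of_subset_of_nonneg
          · intro t ht
            rw [mem_image] at ht
            obtain ⟨g, -, rfl⟩ := ht
            exact par_mem s g
          · intro t _ _; positivity
      _ = (97 / 16 : ℝ) ^ s := by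
          have := sum_pow_mul_eq_add_pow (81 / 16 : ℝ) 1 (range s)
          simp only [one_pow, mul_one, card_range] at this
          rw [this]; norm_num
  have h3 : (0 : ℝ) < (27 / 8 : ℝ) ^ s := by positivity
  have h4 : (97 / 54 : ℝ) ^ s = (97 / 16 : ℝ) ^ s / (27 / 8 : ℝ) ^ s := by
    rw [← div_pow]; norm_num
  rw [h4, le_div_iff₀ h3]
  exact h2

/-- Good starting points are fast. -/
lemma good_fast (m : ℕ) (e : ℕ) : ∀ f : (ZMod 2)[X], f ≠ 0 → f.natDegree = e →
    (∀ n s, m ≤ s → S^[n] f ∉ Bad s) → ∃ n ≤ 4 * e + (m + 1) ^ 2, S^[n] f = 1 := by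
  induction e using Nat.strong_induction_on with
  | _ e ih =>
    intro f hf he hgood
    by_cases hem : e < m
    · obtain ⟨n, hn, h⟩ := worst e f hf he
      refine ⟨n, ?_, h⟩
      have : (e + 1) ^ 2 ≤ (m + 1) ^ 2 := Nat.pow_le_pow_left (by omega) 2
      omega
    · have h0 := hgood 0 e (by omega)
      have hfP : f ∈ P e := by rw [mem_P, degree_eq_natDegree hf, he]
      have h1 : ¬ (3 * e ≤ 4 * (S^[e] f).natDegree) := by
        intro h
        apply h0
        simp only [Bad, mem_filter, Function.iterate_zero, id_eq]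
        exact ⟨hfP, h⟩
      obtain ⟨n, hn, h⟩ := ih (S^[e] f).natDegree (by omega) (S^[e] f) (S_iter_ne_zero hf e) rfl
        (fun n s hs => by
          rw [← Function.iterate_add_apply]
          exact hgood (n + e) s hs)
      refine ⟨n + e, by omega, ?_⟩
      rw [Function.iterate_add_apply, h]

/-- The starting points of degree `d` whose orbit meets a bad polynomial of degree at least `m`. -/
lemma card_notGood [DecidableEq (ZMod 2)[X]] (m d : ℕ) (hm : 1 ≤ m)
    [DecidablePred fun f : (ZMod 2)[X] => ¬ ∀ n s, m ≤ s → S^[n] f ∉ Bad s] :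
    (((P d).filter fun f => ¬ ∀ n s, m ≤ s → S^[n] f ∉ Bad s).card : ℝ) ≤
      ((d : ℝ) + 1) ^ 2 * (2 ^ d * ((97 / 108 : ℝ) ^ m * (108 / 11))) := by
  have hsub : ((P d).filter fun f => ¬ ∀ n s, m ≤ s → S^[n] f ∉ Bad s) ⊆
      (range ((d + 1) ^ 2)).biUnion fun n => (Ico m (d + 1)).biUnion fun s =>
        (Bad s).biUnion fun g => (P d).filter fun f => S^[n] f = g := by
    intro f hf
    rw [mem_filter] at hf
    obtain ⟨hfP, hf2⟩ := hf
    push Not at hf2
    obtain ⟨n, s, hms, hbad⟩ := hf2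
    have hf0 := ne_zero_of_degree (mem_P.1 hfP)
    have hfd := natDegree_eq_of_degree_eq_some (mem_P.1 hfP)
    have hbad' := hbad
    simp only [Bad, mem_filter] at hbad'
    have hsd := natDegree_eq_of_degree_eq_some (mem_P.1 hbad'.1)
    have hn : n < (d + 1) ^ 2 := by
      obtain ⟨N, hN, hN1⟩ := worst d f hf0 hfd
      by_contra hcon
      push Not at hcon
      have : S^[n] f = 1 := by
        have : n = (n - N) + N := by omega
        rw [this, Function.iterate_add_apply, hN1, S_iter_one]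
      rw [this, natDegree_one] at hsd
      omega
    have hs : s < d + 1 := by
      have h1 := natDegree_iter hf0 n
      have h2 := card_par_le n f
      rw [hsd, hfd] at h1
      omega
    simp only [mem_biUnion, mem_range, mem_Ico, mem_filter]
    exact ⟨n, hn, s, ⟨hms, hs⟩, S^[n] f, hbad, hfP, rfl⟩
  have h1 : (((P d).filter fun f => ¬ ∀ n s, m ≤ s → S^[n] f ∉ Bad s).card : ℝ) ≤
      ∑ n ∈ range ((d + 1) ^ 2), ∑ s ∈ Ico m (d + 1), ((Bad s).card * 2 ^ (d - s) : ℝ) := by
    have h2 : ((P d).filter fun f => ¬ ∀ n s, m ≤ s → S^[n] f ∉ Bad s).card ≤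
        ∑ n ∈ range ((d + 1) ^ 2), ∑ s ∈ Ico m (d + 1), (Bad s).card * 2 ^ (d - s) := by
      refine (card_le_card hsub).trans (card_biUnion_le.trans (sum_le_sum fun n _ => ?_))
      refine card_biUnion_le.trans (sum_le_sum fun s hs => ?_)
      refine card_biUnion_le.trans ?_
      rw [mem_Ico] at hs
      calc ∑ g ∈ Bad s, ((P d).filter fun f => S^[n] f = g).card
          ≤ ∑ g ∈ Bad s, 2 ^ (d - s) := by
            refine sum_le_sum fun g hg => ?_
            simp only [Bad, mem_filter] at hg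
            exact card_fibre (by omega) (mem_P.1 hg.1)
        _ = (Bad s).card * 2 ^ (d - s) := by rw [sum_const, smul_eq_mul]
    exact_mod_cast h2
  refine h1.trans ?_
  have h3 : ∀ s ∈ Ico m (d + 1), ((Bad s).card * 2 ^ (d - s) : ℝ) ≤ 2 ^ d * (97 / 108 : ℝ) ^ s := by
    intro s hs
    rw [mem_Ico] at hs
    have e1 : (2 : ℝ) ^ d = 2 ^ (d - s) * 2 ^ s := by rw [← pow_add]; congr 1; omega
    have e2 : (2 : ℝ) ^ s * (97 / 108 : ℝ) ^ s = (97 / 54 : ℝ) ^ s := by
      rw [← mul_pow]; norm_num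
    calc ((Bad s).card * 2 ^ (d - s) : ℝ) ≤ (97 / 54 : ℝ) ^ s * 2 ^ (d - s) :=
          mul_le_mul_of_nonneg_right (card_Bad s) (by positivity)
      _ = 2 ^ d * (97 / 108 : ℝ) ^ s := by rw [e1, ← e2]; ring
  calc ∑ n ∈ range ((d + 1) ^ 2), ∑ s ∈ Ico m (d + 1), ((Bad s).card * 2 ^ (d - s) : ℝ)
      ≤ ∑ n ∈ range ((d + 1) ^ 2), ∑ s ∈ Ico m (d + 1), 2 ^ d * (97 / 108 : ℝ) ^ s :=
        sum_le_sum fun n _ => sum_le_sum h3
    _ = ((d : ℝ) + 1) ^ 2 * (2 ^ d * ∑ s ∈ Ico m (d + 1), (97 / 108 : ℝ) ^ s) := by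
        rw [sum_const, card_range, nsmul_eq_mul, ← mul_sum]; push_cast; ring
    _ ≤ ((d : ℝ) + 1) ^ 2 * (2 ^ d * ((97 / 108 : ℝ) ^ m * (108 / 11))) := by
        have h4 := geom_sum_Ico_le_of_lt_one (x := (97 / 108 : ℝ)) (m := m) (n := d + 1)
          (by norm_num) (by norm_num)
        have h5 : (97 / 108 : ℝ) ^ m / (1 - 97 / 108) = (97 / 108 : ℝ) ^ m * (108 / 11) := by
          rw [div_eq_mul_inv]; norm_num
        rw [h5] at h4
        gcongr

/-! ### Passing to the original map -/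

lemma tMin_le_of_S {f : (ZMod 2)[X]} {n : ℕ} (h : S^[n] f = 1) : tMin f ≤ 2 * n := by
  obtain ⟨k, hk, hk2⟩ := S_iter_eq_T_iter n f
  exact (Nat.sInf_le (hk2.symm.trans h)).trans hk

lemma T_ne_zero {f : (ZMod 2)[X]} (hf : f ≠ 0) : T f ≠ 0 := by
  by_cases hp : f.coeff 0 = 1
  · intro h
    have h1 := TT_odd hp
    have h2 : T (0 : (ZMod 2)[X]) = 0 := by rw [T, if_neg (by simp)]; simp
    rw [h, h2] at h1
    exact S_ne_zero hf h1.symm
  · rw [T_even hp]; exact S_ne_zero hf

lemma natDegree_le_T {f : (ZMod 2)[X]} (hf : f ≠ 0) : f.natDegree ≤ (T f).natDegree + 1 := by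
  by_cases hp : f.coeff 0 = 1
  · have h1 : T f = X * S f := by rw [T, if_pos hp, X_mul_S_odd hp]
    rw [h1, natDegree_X_mul (S_ne_zero hf), natDegree_S_odd hp]
    omega
  · rw [T_even hp, natDegree_S_even hf hp]

lemma natDegree_le_iter {f : (ZMod 2)[X]} (hf : f ≠ 0) (k : ℕ) :
    T^[k] f ≠ 0 ∧ f.natDegree ≤ (T^[k] f).natDegree + k := by
  induction k with
  | zero => exact ⟨by simpa using hf, by simp⟩
  | succ k ih =>
    rw [Function.iterate_succ_apply']
    refine ⟨T_ne_zero ih.1, ?_⟩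
    have := natDegree_le_T ih.1
    omega

lemma le_tMin {f : (ZMod 2)[X]} (hf : f ≠ 0) : f.natDegree ≤ tMin f := by
  obtain ⟨n, -, hn⟩ := worst f.natDegree f hf rfl
  obtain ⟨k, -, hk2⟩ := S_iter_eq_T_iter n f
  have hne : {k : ℕ | T^[k] f = 1}.Nonempty := ⟨k, hk2.symm.trans hn⟩
  have h1 : T^[tMin f] f = 1 := Nat.sInf_mem hne
  have h2 := (natDegree_le_iter hf (tMin f)).2
  rw [h1, natDegree_one] at h2
  omega

lemma rho_eq (d : ℕ) : rho d = (∑ f ∈ P d, (tMin f : ℝ)) / 2 ^ d := rfl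

lemma rho_lower (d : ℕ) : (d : ℝ) ≤ rho d := by
  rw [rho_eq, le_div_iff₀ (by positivity)]
  have h : ∀ f ∈ P d, (d : ℝ) ≤ (tMin f : ℝ) := by
    intro f hf
    have h1 := le_tMin (ne_zero_of_degree (mem_P.1 hf))
    rw [natDegree_eq_of_degree_eq_some (mem_P.1 hf)] at h1
    exact_mod_cast h1
  calc (d : ℝ) * 2 ^ d = ∑ f ∈ P d, (d : ℝ) := by
        rw [sum_const, card_P, nsmul_eq_mul]; push_cast; ring
    _ ≤ _ := sum_le_sum h

lemma rho_upper_aux (m d : ℕ) (hm : 1 ≤ m) :
    rho d ≤ 2 * (4 * d + ((m : ℝ) + 1) ^ 2) +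
      2 * ((d : ℝ) + 1) ^ 4 * ((97 / 108 : ℝ) ^ m * (108 / 11)) := by
  classical
  rw [rho_eq, div_le_iff₀ (by positivity)]
  rw [← sum_filter_add_sum_filter_not (P d) (fun f => ∀ n s, m ≤ s → S^[n] f ∉ Bad s)]
  have h1 : ∑ f ∈ (P d).filter (fun f => ∀ n s, m ≤ s → S^[n] f ∉ Bad s), (tMin f : ℝ) ≤
      (2 * (4 * d + ((m : ℝ) + 1) ^ 2)) * 2 ^ d := by
    have hb : ∀ f ∈ (P d).filter (fun f => ∀ n s, m ≤ s → S^[n] f ∉ Bad s),
        (tMin f : ℝ) ≤ 2 * (4 * d + ((m : ℝ) + 1) ^ 2) := by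
      intro f hf
      rw [mem_filter] at hf
      obtain ⟨n, hn, hn1⟩ := good_fast m d f (ne_zero_of_degree (mem_P.1 hf.1))
        (natDegree_eq_of_degree_eq_some (mem_P.1 hf.1)) hf.2
      have h2 := tMin_le_of_S hn1
      have h3 : tMin f ≤ 2 * (4 * d + (m + 1) ^ 2) := h2.trans (by omega)
      exact_mod_cast h3
    refine (sum_le_sum hb).trans ?_
    rw [sum_const, nsmul_eq_mul, mul_comm]
    apply mul_le_mul_of_nonneg_left _ (by positivity)
    have : ((P d).filter (fun f => ∀ n s, m ≤ s → S^[n] f ∉ Bad s)).card ≤ 2 ^ d := by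
      rw [← card_P d]; exact card_filter_le _ _
    exact_mod_cast this
  have h2 : ∑ f ∈ (P d).filter (fun f => ¬ ∀ n s, m ≤ s → S^[n] f ∉ Bad s), (tMin f : ℝ) ≤
      (2 * ((d : ℝ) + 1) ^ 4 * ((97 / 108 : ℝ) ^ m * (108 / 11))) * 2 ^ d := by
    have hb : ∀ f ∈ (P d).filter (fun f => ¬ ∀ n s, m ≤ s → S^[n] f ∉ Bad s),
        (tMin f : ℝ) ≤ 2 * ((d : ℝ) + 1) ^ 2 := by
      intro f hf
      rw [mem_filter] at hf
      obtain ⟨n, hn, hn1⟩ := worst d f (ne_zero_of_degree (mem_P.1 hf.1))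
        (natDegree_eq_of_degree_eq_some (mem_P.1 hf.1))
      have h2 := tMin_le_of_S hn1
      have h3 : tMin f ≤ 2 * (d + 1) ^ 2 := h2.trans (by omega)
      exact_mod_cast h3
    refine (sum_le_sum hb).trans ?_
    rw [sum_const, nsmul_eq_mul, mul_comm]
    calc 2 * ((d : ℝ) + 1) ^ 2 *
          (((P d).filter (fun f => ¬ ∀ n s, m ≤ s → S^[n] f ∉ Bad s)).card : ℝ)
        ≤ 2 * ((d : ℝ) + 1) ^ 2 *
          (((d : ℝ) + 1) ^ 2 * (2 ^ d * ((97 / 108 : ℝ) ^ m * (108 / 11)))) :=
          mul_le_mul_of_nonneg_left (card_notGood m d hm) (by positivity)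
      _ = _ := by ring
  calc _ ≤ _ := add_le_add h1 h2
    _ = _ := by ring

lemma exists_const : ∃ C : ℝ, 0 ≤ C ∧ ∀ m : ℕ, ((m : ℝ) + 1) ^ 8 * (97 / 108 : ℝ) ^ m ≤ C := by
  have h := tendsto_pow_const_mul_const_pow_of_abs_lt_one 8
    (r := (97 / 108 : ℝ)) (by rw [abs_lt]; constructor <;> norm_num)
  obtain ⟨C, hC⟩ := h.bddAbove_range
  refine ⟨C * (108 / 97), ?_, fun m => ?_⟩
  · have h0 := hC ⟨0, rfl⟩
    norm_num at h0
    positivity
  · have h1 := hC ⟨m + 1, rfl⟩
    simp only at h1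
    push_cast at h1
    have e : ((m : ℝ) + 1) ^ 8 * (97 / 108 : ℝ) ^ (m + 1) =
        (((m : ℝ) + 1) ^ 8 * (97 / 108 : ℝ) ^ m) * (97 / 108) := by ring
    rw [e] at h1
    linarith

/-- **Main theorem**: the average stopping time `rho d` grows linearly in `d`. -/
theorem result : ∃ c₁ c₂ : ℝ, 0 < c₁ ∧ c₁ ≤ c₂ ∧
    ∀ᶠ d : ℕ in Filter.atTop, c₁ * d ≤ rho d ∧ rho d ≤ c₂ * d := by
  obtain ⟨C, hC0, hC⟩ := exists_const
  refine ⟨1, 16 + 2 * C * (108 / 11), one_pos, by nlinarith, ?_⟩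
  filter_upwards [Filter.eventually_ge_atTop 1] with d hd
  refine ⟨by simpa using rho_lower d, ?_⟩
  set m := Nat.sqrt d with hm
  have hm1 : 1 ≤ m := by rw [hm]; exact Nat.le_sqrt'.2 (by simpa using hd)
  have h1 := rho_upper_aux m d hm1
  have h2 : m ^ 2 ≤ d := Nat.sqrt_le' d
  have h3 : d < (m + 1) ^ 2 := Nat.lt_succ_sqrt' d
  have h2' : (m : ℝ) ^ 2 ≤ d := by exact_mod_cast h2
  have h3' : (d : ℝ) + 1 ≤ ((m : ℝ) + 1) ^ 2 := by exact_mod_cast h3
  have hm1' : (1 : ℝ) ≤ m := by exact_mod_cast hm1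
  have hd' : (1 : ℝ) ≤ d := by exact_mod_cast hd
  have h4 : ((m : ℝ) + 1) ^ 2 ≤ 4 * d := by nlinarith
  have h5 : ((d : ℝ) + 1) ^ 4 ≤ ((m : ℝ) + 1) ^ 8 := by
    calc ((d : ℝ) + 1) ^ 4 ≤ (((m : ℝ) + 1) ^ 2) ^ 4 := by gcongr
      _ = ((m : ℝ) + 1) ^ 8 := by ring
  have h6 : 2 * ((d : ℝ) + 1) ^ 4 * ((97 / 108 : ℝ) ^ m * (108 / 11)) ≤
      2 * C * (108 / 11) := by
    calc 2 * ((d : ℝ) + 1) ^ 4 * ((97 / 108 : ℝ) ^ m * (108 / 11))
        ≤ 2 * ((m : ℝ) + 1) ^ 8 * ((97 / 108 : ℝ) ^ m * (108 / 11)) := by gcongr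
      _ = 2 * (((m : ℝ) + 1) ^ 8 * (97 / 108 : ℝ) ^ m) * (108 / 11) := by ring
      _ ≤ 2 * C * (108 / 11) := by have := hC m; gcongr
  nlinarith

end Pool.Agent.Results.MP_d51b1e_co.LinearGrowth
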